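import Pool.Agent.Helper78.KD.Defs

/-!
# KD, block K8: the powers and the multiples of the powers are locally families
-/

set_option autoImplicit false

namespace Pool.Agent.Helper80.KD

open MeasureTheory Set Filter Topology
open Pool.Agent.Helper78.KD

theorem inst_mul {x₀ β₁ β₂ τ : ℝ} (hx₀ : 1 < x₀) (hβ : 1 < β₁) (h₁ : β₁ < x₀) (h₂ : x₀ < β₂) (hτ : 0 < τ) (D : ℕ)
    (c : ℕ → ℝ) :
    LocFam (fun n ξ => ξ * x₀ ^ (n + 1) + c n) univ (fun d => x₀ ^ d) D τ β₁ β₂ := by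
  intro x _ O hO W κ hκ
  have hx0 : 0 < x₀ := by linarith
  obtain ⟨ε, hε, hball⟩ := Metric.mem_nhds_iff.1 hO
  have hlim : Tendsto (fun n : ℕ => x₀ ^ n) atTop atTop := tendsto_pow_atTop_atTop_of_one_lt hx₀
  obtain ⟨n₀, hn₀⟩ := (hlim.eventually_gt_atTop (1 / ε)).exists
  have hp : ∀ n : ℕ, 0 < x₀ ^ n := fun n => pow_pos hx0 n
  have hP := hp (n₀ + 1)
  set δ : ℝ := 3 / 4 / x₀ ^ (n₀ + 1) with hδ
  have hδ0 : 0 < δ := by positivity
  have hδε : δ < ε := by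
    rw [hδ, div_lt_iff₀ hP, pow_succ]
    rw [div_lt_iff₀ hε] at hn₀
    nlinarith [hp n₀]
  have hδP : δ * x₀ ^ (n₀ + 1) = 3 / 4 := by rw [hδ]; field_simp
  refine ⟨n₀, fun n _ => x₀ ^ (n + n₀ + 1), x - δ, x + δ, ⟨by linarith, by linarith⟩, ?_, ?_, ?_, ?_⟩
  · intro y hy
    apply hball
    rw [Metric.mem_ball, Real.dist_eq, abs_lt]
    rw [mem_Icc] at hy
    constructor <;> linarith [hy.1, hy.2]
  · refine ⟨by linarith, hβ, by linarith, ?_, ?_, ?_, ?_, ?_, ?_, ?_⟩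
    · intro n y _
      have h := ((hasDerivAt_id y).mul_const (x₀ ^ (n + n₀ + 1))).add_const (c (n + n₀))
      simpa using h
    · intro n
      exact continuousOn_const
    · intro n y _
      exact hp _
    · intro n
      exact monotoneOn_const
    · intro n y _
      have e : x₀ ^ (n + 1 + n₀ + 1) = x₀ * x₀ ^ (n + n₀ + 1) := by ring
      simp only [e]
      exact ⟨mul_le_mul_of_nonneg_right h₁.le (hp _).le, mul_le_mul_of_nonneg_right h₂.le (hp _).le⟩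
    · have e : (x + δ) * x₀ ^ (0 + n₀ + 1) + c (0 + n₀) - ((x - δ) * x₀ ^ (0 + n₀ + 1) + c (0 + n₀)) = 3 / 2 := by
        rw [Nat.zero_add]
        linarith [hδP]
      simp only [e]
      norm_num
    · intro n y _ z _ _ _
      linarith [hp (n + n₀ + 1)]
  · intro d _ _ j y _
    have e : x₀ ^ (j + d + n₀ + 1) = x₀ ^ d * x₀ ^ (j + n₀ + 1) := by ring
    simp only [e, sub_self, abs_zero]
    exact mul_nonneg hτ.le (hp _).le
  · intro n j _ _ y _ z _ _ _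
    have := mul_pos hκ (hp (j + n₀ + 1))
    simp only
    linarith

theorem inst_pow {x₀ β₁ β₂ τ : ℝ} (hx₀ : 1 < x₀) (hβ : 1 < β₁) (h₁ : β₁ < x₀) (h₂ : x₀ < β₂) (hτ : 0 < τ) (D : ℕ) :
    ∃ ρ₀ : ℝ, 0 < ρ₀ ∧ ∀ A : ℝ, 0 < A → ∀ c : ℕ → ℝ,
      LocFam (fun n x => A * x ^ (n + 1) + c n) (Ioo (x₀ - ρ₀) (x₀ + ρ₀)) (fun d => x₀ ^ d) D τ β₁ β₂ := by
  -- the radius
  have hev : ∀ᶠ y in 𝓝 x₀, β₁ < y ∧ y < (x₀ + β₂) / 2 ∧ ∀ d ∈ Finset.range (D + 1), |y ^ d - x₀ ^ d| < τ / 2 := by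
    refine (lt_mem_nhds h₁).and ((gt_mem_nhds (by linarith)).and ?_)
    rw [Filter.eventually_all_finset]
    intro d _
    have hc : ContinuousAt (fun y : ℝ => |y ^ d - x₀ ^ d|) x₀ := by fun_prop
    have : (fun y : ℝ => |y ^ d - x₀ ^ d|) x₀ < τ / 2 := by simp; linarith
    exact hc.eventually_lt continuousAt_const this
  obtain ⟨ρ₀, hρ₀, hball⟩ := Metric.eventually_nhds_iff.1 hev
  refine ⟨ρ₀, hρ₀, fun A hA c => ?_⟩
  have hG : ∀ y ∈ Ioo (x₀ - ρ₀) (x₀ + ρ₀), β₁ < y ∧ y < (x₀ + β₂) / 2 ∧ ∀ d ∈ Finset.range (D + 1), |y ^ d - x₀ ^ d| < τ / 2 := by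
    intro y hy
    apply hball
    rw [Real.dist_eq, abs_lt]
    rw [mem_Ioo] at hy
    constructor <;> linarith [hy.1, hy.2]
  intro x hx O hO W κ hκ
  -- a fixed neighbourhood
  have hO' : O ∩ Ioo (x₀ - ρ₀) (x₀ + ρ₀) ∈ 𝓝 x := Filter.inter_mem hO (Ioo_mem_nhds hx.1 hx.2)
  obtain ⟨ε, hε, hOε⟩ := Metric.mem_nhds_iff.1 hO'
  set h₀ : ℝ := ε / 2 with hh₀
  have hh0 : 0 < h₀ := by positivity
  have hin : ∀ y ∈ Icc (x - h₀) (x + h₀), y ∈ O ∩ Ioo (x₀ - ρ₀) (x₀ + ρ₀) := by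
    intro y hy
    apply hOε
    rw [Metric.mem_ball, Real.dist_eq, abs_lt]
    rw [mem_Icc] at hy
    constructor <;> linarith [hy.1, hy.2]
  set P : ℝ := (x₀ + β₂) / 2 with hP
  have hP1 : 1 < P := by rw [hP]; linarith
  have hPβ : P < β₂ := by rw [hP]; linarith
  have hz := tendsto_one_div_add_atTop_nhds_zero_nat (𝕜 := ℝ)
  have ea : ∀ᶠ n : ℕ in atTop, (1 + 1 / ((n : ℝ) + 1)) * P ≤ β₂ := by
    have h1 : Tendsto (fun n : ℕ => (1 + 1 / ((n : ℝ) + 1)) * P) atTop (𝓝 ((1 + 0) * P)) := (hz.const_add 1).mul_const P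
    have h2 : (1 + 0) * P < β₂ := by linarith
    exact (h1.eventually_lt_const h2).mono fun n hn => hn.le
  have eb : ∀ᶠ n : ℕ in atTop, (D : ℝ) * (1 / ((n : ℝ) + 1)) * P ^ D ≤ τ / 2 := by
    have h1 : Tendsto (fun n : ℕ => (D : ℝ) * (1 / ((n : ℝ) + 1)) * P ^ D) atTop (𝓝 ((D : ℝ) * 0 * P ^ D)) :=
      (hz.const_mul (D : ℝ)).mul_const _
    have h2 : (D : ℝ) * 0 * P ^ D < τ / 2 := by simp; linarith
    exact (h1.eventually_lt_const h2).mono fun n hn => hn.le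
  have ec : ∀ᶠ n : ℕ in atTop, Real.exp (2 * (1 + W) / (A * β₁ ^ n)) ≤ 1 + min κ 1 := by
    have h0 : Tendsto (fun n : ℕ => A * β₁ ^ n) atTop atTop :=
      (tendsto_pow_atTop_atTop_of_one_lt hβ).const_mul_atTop hA
    have h1 : Tendsto (fun n : ℕ => Real.exp (2 * (1 + W) / (A * β₁ ^ n))) atTop (𝓝 (Real.exp 0)) :=
      (Real.continuous_exp.tendsto 0).comp (h0.const_div_atTop _)
    have h2 : Real.exp 0 < 1 + min κ 1 := by
      rw [Real.exp_zero]
      have : 0 < min κ 1 := lt_min hκ one_pos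
      linarith
    exact (h1.eventually_lt_const h2).mono fun n hn => hn.le
  have ed : ∀ᶠ n : ℕ in atTop, 3 / 2 ≤ 2 * A * h₀ * ((n : ℝ) + 1) := by
    have h1 : Tendsto (fun n : ℕ => 2 * A * h₀ * ((n : ℝ) + 1)) atTop atTop :=
      (tendsto_atTop_add_const_right _ 1 tendsto_natCast_atTop_atTop).const_mul_atTop (by positivity)
    exact h1.eventually_ge_atTop _
  obtain ⟨n₀, ha, hb, hc, hd⟩ := (ea.and (eb.and (ec.and ed))).exists
  -- powers: convexity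
  have hconv : ∀ (m : ℕ) (y z : ℝ), 0 < y → y ≤ z → (m + 1 : ℝ) * y ^ m * (z - y) ≤ z ^ (m + 1) - y ^ (m + 1) := by
    intro m y z hy hyz
    have h1 : z ^ (m + 1) - y ^ (m + 1) = (∑ i ∈ Finset.range (m + 1), z ^ i * y ^ (m + 1 - 1 - i)) * (z - y) :=
      (Commute.all z y).geom_sum₂_mul (m + 1) |>.symm
    rw [h1]
    refine mul_le_mul_of_nonneg_right ?_ (by linarith)
    have h2 : (m + 1 : ℝ) * y ^ m = ∑ i ∈ Finset.range (m + 1), y ^ m := by
      rw [Finset.sum_const, Finset.card_range, nsmul_eq_mul]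
      push_cast
      ring
    rw [h2]
    refine Finset.sum_le_sum fun i hi => ?_
    rw [Finset.mem_range] at hi
    have h3 : y ^ m = y ^ i * y ^ (m + 1 - 1 - i) := by
      rw [← pow_add]
      congr 1
      omega
    rw [h3]
    exact mul_le_mul_of_nonneg_right (pow_le_pow_left₀ hy.le hyz i) (by positivity)
  -- the root interval
  have hβpos : 0 < β₁ := by linarith
  have hlow : ∀ y ∈ Icc (x - h₀) (x + h₀), β₁ < y ∧ y < P ∧ ∀ d ∈ Finset.range (D + 1), |y ^ d - x₀ ^ d| < τ / 2 :=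
    fun y hy => hG y (hin y hy).2
  have hroot : ∃ h : ℝ, 0 < h ∧ h ≤ h₀ ∧ A * (x + h) ^ (n₀ + 1) - A * (x - h) ^ (n₀ + 1) = 3 / 2 := by
    have hcont : ContinuousOn (fun h : ℝ => A * (x + h) ^ (n₀ + 1) - A * (x - h) ^ (n₀ + 1)) (Icc 0 h₀) := by fun_prop
    have h1 := hlow (x - h₀) ⟨le_refl _, by linarith⟩
    have h2 := hconv n₀ (x - h₀) (x + h₀) (by linarith [h1.1]) (by linarith)
    have h3 : 1 ≤ (x - h₀) ^ n₀ := one_le_pow₀ (by linarith [h1.1])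
    have h4 : 3 / 2 ≤ A * (x + h₀) ^ (n₀ + 1) - A * (x - h₀) ^ (n₀ + 1) := by
      have h5 : ((n₀ : ℝ) + 1) * 1 * (2 * h₀) ≤ ((n₀ : ℝ) + 1) * (x - h₀) ^ n₀ * (x + h₀ - (x - h₀)) := by
        have : x + h₀ - (x - h₀) = 2 * h₀ := by ring
        rw [this]
        gcongr
      have h6 := mul_le_mul_of_nonneg_left (h5.trans h2) hA.le
      have h7 : A * (((n₀ : ℝ) + 1) * 1 * (2 * h₀)) = 2 * A * h₀ * ((n₀ : ℝ) + 1) := by ring
      rw [h7] at h6
      have h8 : A * ((x + h₀) ^ (n₀ + 1) - (x - h₀) ^ (n₀ + 1)) = A * (x + h₀) ^ (n₀ + 1) - A * (x - h₀) ^ (n₀ + 1) := by ring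
      linarith
    have h5 : (3 / 2 : ℝ) ∈ Icc ((fun h : ℝ => A * (x + h) ^ (n₀ + 1) - A * (x - h) ^ (n₀ + 1)) 0)
        ((fun h : ℝ => A * (x + h) ^ (n₀ + 1) - A * (x - h) ^ (n₀ + 1)) h₀) := by
      refine ⟨?_, h4⟩
      simp only [add_zero, sub_zero, sub_self]
      norm_num
    obtain ⟨h, hh, hhe⟩ := intermediate_value_Icc hh0.le hcont h5
    refine ⟨h, lt_of_le_of_ne hh.1 ?_, hh.2, hhe⟩
    rintro rfl
    simp only [add_zero, sub_zero, sub_self] at hhe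
    norm_num at hhe
  obtain ⟨h, hh, hhh, hhe⟩ := hroot
  have hsub : ∀ y ∈ Icc (x - h) (x + h), y ∈ Icc (x - h₀) (x + h₀) := by
    intro y hy
    rw [mem_Icc] at hy ⊢
    constructor <;> linarith [hy.1, hy.2]
  have hL : ∀ y ∈ Icc (x - h) (x + h), β₁ < y ∧ y < P ∧ ∀ d ∈ Finset.range (D + 1), |y ^ d - x₀ ^ d| < τ / 2 :=
    fun y hy => hlow y (hsub y hy)
  -- distortion
  have hdist : ∀ n j, n ≤ j → j ≤ n + W → ∀ y ∈ Icc (x - h) (x + h), ∀ z ∈ Icc (x - h) (x + h), y ≤ z →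
      (A * z ^ (n + n₀ + 1) + c (n + n₀)) - (A * y ^ (n + n₀ + 1) + c (n + n₀)) ≤ 2 →
      A * ((j + n₀ : ℕ) + 1 : ℝ) * z ^ (j + n₀) ≤ (1 + min κ 1) * (A * ((j + n₀ : ℕ) + 1 : ℝ) * y ^ (j + n₀)) := by
    intro n j hnj hjW y hy z hz hyz hu
    have hy1 := (hL y hy).1
    have hy0 : 0 < y := by linarith
    have hc1 := hconv (n + n₀) y z hy0 hyz
    have hym : 0 < y ^ (n + n₀) := pow_pos hy0 _
    have h1 : A * ((((n + n₀ : ℕ) : ℝ) + 1) * y ^ (n + n₀) * (z - y)) ≤ 2 := by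
      have := mul_le_mul_of_nonneg_left hc1 hA.le
      linarith
    have h2 : z ^ (j + n₀) ≤ Real.exp (2 * (1 + W) / (A * β₁ ^ n₀)) * y ^ (j + n₀) := by
      have h3 : z ≤ y * Real.exp ((z - y) / y) := by
        have := Real.add_one_le_exp ((z - y) / y)
        calc z = y * ((z - y) / y + 1) := by field_simp; ring
          _ ≤ y * Real.exp ((z - y) / y) := mul_le_mul_of_nonneg_left this hy0.le
      have h4 : z ^ (j + n₀) ≤ (y * Real.exp ((z - y) / y)) ^ (j + n₀) := pow_le_pow_left₀ (by linarith) h3 _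
      rw [mul_pow, ← Real.exp_nat_mul] at h4
      have h5 : ((j + n₀ : ℕ) : ℝ) * ((z - y) / y) ≤ 2 * (1 + W) / (A * β₁ ^ n₀) := by
        have h6 : ((j + n₀ : ℕ) : ℝ) ≤ (1 + W) * (((n + n₀ : ℕ) : ℝ) + 1) := by
          have h7 : (j + n₀ : ℕ) ≤ (1 + W) * ((n + n₀) + 1) := by
            nlinarith [Nat.zero_le (W * (n + n₀))]
          exact_mod_cast h7
        have h7 : β₁ ^ n₀ ≤ y ^ (n + n₀) := by
          calc β₁ ^ n₀ ≤ y ^ n₀ := pow_le_pow_left₀ hβpos.le hy1.le _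
            _ ≤ y ^ (n + n₀) := pow_le_pow_right₀ (by linarith) (by omega)
        have hzy : 0 ≤ z - y := by linarith
        have h8 : (z - y) / y ≤ z - y := div_le_self hzy (by linarith)
        rw [le_div_iff₀ (by positivity)]
        have hq : 0 ≤ (((n + n₀ : ℕ) : ℝ) + 1) := by positivity
        calc ((j + n₀ : ℕ) : ℝ) * ((z - y) / y) * (A * β₁ ^ n₀)
            ≤ ((1 + W) * (((n + n₀ : ℕ) : ℝ) + 1)) * (z - y) * (A * y ^ (n + n₀)) := by gcongr
          _ = (1 + W) * (A * ((((n + n₀ : ℕ) : ℝ) + 1) * y ^ (n + n₀) * (z - y))) := by ring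
          _ ≤ (1 + W) * 2 := mul_le_mul_of_nonneg_left h1 (by positivity)
          _ = 2 * (1 + W) := by ring
      calc z ^ (j + n₀) ≤ y ^ (j + n₀) * Real.exp (((j + n₀ : ℕ) : ℝ) * ((z - y) / y)) := h4
        _ ≤ y ^ (j + n₀) * Real.exp (2 * (1 + W) / (A * β₁ ^ n₀)) :=
            mul_le_mul_of_nonneg_left (Real.exp_le_exp.2 h5) (by positivity)
        _ = _ := mul_comm _ _
    have h3 : z ^ (j + n₀) ≤ (1 + min κ 1) * y ^ (j + n₀) :=
      h2.trans (mul_le_mul_of_nonneg_right hc (by positivity))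
    calc A * ((j + n₀ : ℕ) + 1 : ℝ) * z ^ (j + n₀) ≤ A * ((j + n₀ : ℕ) + 1 : ℝ) * ((1 + min κ 1) * y ^ (j + n₀)) :=
          mul_le_mul_of_nonneg_left h3 (by positivity)
      _ = _ := by ring
  refine ⟨n₀, fun n y => A * ((n + n₀ : ℕ) + 1 : ℝ) * y ^ (n + n₀), x - h, x + h, ⟨by linarith, by linarith⟩,
    fun y hy => (hin y (hsub y hy)).1, ?_, ?_, ?_⟩
  · refine ⟨by linarith, hβ, by linarith, ?_, ?_, ?_, ?_, ?_, ?_, ?_⟩
    · intro n y _
      have h1 := ((hasDerivAt_pow (n + n₀ + 1) y).const_mul A).add_const (c (n + n₀))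
      have h2 : A * (((n + n₀ + 1 : ℕ) : ℝ) * y ^ (n + n₀ + 1 - 1)) = A * ((n + n₀ : ℕ) + 1 : ℝ) * y ^ (n + n₀) := by
        rw [Nat.add_sub_cancel]
        push_cast
        ring
      rw [h2] at h1
      exact h1
    · intro n
      fun_prop
    · intro n y hy
      have := (hL y hy).1
      have hy0 : 0 < y := by linarith
      positivity
    · intro n y hy z _ hyz
      have := (hL y hy).1
      exact mul_le_mul_of_nonneg_left (pow_le_pow_left₀ (by linarith) hyz _) (by positivity)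
    · intro n y hy
      obtain ⟨hy1, hyP, -⟩ := hL y hy
      have hy0 : 0 < y := by linarith
      have hyn : 0 < y ^ (n + n₀) := pow_pos hy0 _
      have e : n + 1 + n₀ = (n + n₀) + 1 := by omega
      simp only [e, pow_succ]
      push_cast
      have hm : (0 : ℝ) ≤ n := Nat.cast_nonneg n
      have hm0 : (0 : ℝ) ≤ n₀ := Nat.cast_nonneg n₀
      constructor
      · have h1 : β₁ * ((n : ℝ) + n₀ + 1) ≤ ((n : ℝ) + n₀ + 1 + 1) * y := by nlinarith
        have h2 := mul_le_mul_of_nonneg_left h1 (mul_nonneg hA.le hyn.le)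
        nlinarith [h2]
      · have h1 : ((n : ℝ) + n₀ + 1 + 1) * y ≤ β₂ * ((n : ℝ) + n₀ + 1) := by
          have h3 : ((n : ℝ) + n₀ + 1 + 1) ≤ (1 + 1 / ((n₀ : ℝ) + 1)) * ((n : ℝ) + n₀ + 1) := by
            have h4 : 1 ≤ 1 / ((n₀ : ℝ) + 1) * ((n : ℝ) + n₀ + 1) := by
              rw [one_div, inv_mul_eq_div, le_div_iff₀ (by positivity)]
              linarith
            linarith
          calc ((n : ℝ) + n₀ + 1 + 1) * y ≤ ((1 + 1 / ((n₀ : ℝ) + 1)) * ((n : ℝ) + n₀ + 1)) * P := by gcongr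
            _ = ((1 + 1 / ((n₀ : ℝ) + 1)) * P) * ((n : ℝ) + n₀ + 1) := by ring
            _ ≤ β₂ * ((n : ℝ) + n₀ + 1) := mul_le_mul_of_nonneg_right ha (by positivity)
        have h2 := mul_le_mul_of_nonneg_left h1 (mul_nonneg hA.le hyn.le)
        nlinarith [h2]
    · have e : A * (x + h) ^ (0 + n₀ + 1) + c (0 + n₀) - (A * (x - h) ^ (0 + n₀ + 1) + c (0 + n₀)) = 3 / 2 := by
        rw [Nat.zero_add, ← hhe]
        ring
      simp only [e]
      norm_num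
    · intro n y hy z hz hyz hu
      have h1 := hdist n n le_rfl (by omega) y hy z hz hyz hu
      refine h1.trans ?_
      have hy0 : 0 < y := by linarith [(hL y hy).1]
      refine mul_le_mul_of_nonneg_right ?_ (by positivity)
      have := min_le_right κ 1
      linarith
  · intro d hd1 hdD j y hy
    obtain ⟨hy1, hyP, hyd⟩ := hL y hy
    have hy0 : 0 < y := by linarith
    have hyj : 0 < y ^ (j + n₀) := pow_pos hy0 _
    have hd' := hyd d (Finset.mem_range.2 (by omega))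
    have e : j + d + n₀ = (j + n₀) + d := by omega
    simp only [e, pow_add y (j + n₀) d]
    have hq : (0 : ℝ) < ((j + n₀ : ℕ) : ℝ) + 1 := by positivity
    have h1 : A * ((((j + n₀) + d : ℕ) : ℝ) + 1) * (y ^ (j + n₀) * y ^ d) - x₀ ^ d * (A * (((j + n₀ : ℕ) : ℝ) + 1) * y ^ (j + n₀)) =
        (A * (((j + n₀ : ℕ) : ℝ) + 1) * y ^ (j + n₀)) * ((y ^ d - x₀ ^ d) + d / (((j + n₀ : ℕ) : ℝ) + 1) * y ^ d) := by
      push_cast
      field_simp
      ring
    rw [h1, abs_mul, abs_of_pos (by positivity), mul_comm]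
    refine mul_le_mul_of_nonneg_right ?_ (by positivity)
    have h2 : (d : ℝ) / (((j + n₀ : ℕ) : ℝ) + 1) * y ^ d ≤ τ / 2 := by
      refine le_trans ?_ hb
      have h3 : (d : ℝ) / (((j + n₀ : ℕ) : ℝ) + 1) ≤ (D : ℝ) * (1 / ((n₀ : ℝ) + 1)) := by
        rw [mul_one_div]
        have h4 : (d : ℝ) ≤ D := by exact_mod_cast hdD
        have h5 : (n₀ : ℝ) + 1 ≤ ((j + n₀ : ℕ) : ℝ) + 1 := by
          push_cast
          have : (0 : ℝ) ≤ j := Nat.cast_nonneg j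
          linarith
        gcongr
      have h4 : y ^ d ≤ P ^ D := by
        calc y ^ d ≤ P ^ d := pow_le_pow_left₀ hy0.le hyP.le _
          _ ≤ P ^ D := pow_le_pow_right₀ hP1.le hdD
      exact mul_le_mul h3 h4 (by positivity) (by positivity)
    have h3 : 0 ≤ (d : ℝ) / (((j + n₀ : ℕ) : ℝ) + 1) * y ^ d := by positivity
    calc |y ^ d - x₀ ^ d + d / (((j + n₀ : ℕ) : ℝ) + 1) * y ^ d| ≤ |y ^ d - x₀ ^ d| + |d / (((j + n₀ : ℕ) : ℝ) + 1) * y ^ d| :=
          abs_add_le _ _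
      _ ≤ τ := by rw [abs_of_nonneg h3]; linarith
  · intro n j hnj hjW y hy z hz hyz hu
    have h1 := hdist n j hnj hjW y hy z hz hyz hu
    refine h1.trans ?_
    have hy0 : 0 < y := by linarith [(hL y hy).1]
    refine mul_le_mul_of_nonneg_right ?_ (by positivity)
    have := min_le_left κ 1
    linarith

end Pool.Agent.Helper80.KD
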