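import Pool.Agent.Helper78.KD.Defs
import Pool.Agent.Helper44.KW.Defs

/-!
# KD, block F7: the powers times a positive function of class two
-/

set_option autoImplicit false

namespace Pool.Agent.Helper80.KD

open MeasureTheory Set Filter Topology
open Pool.Agent.Helper78.KD
open Pool.Agent.Helper44.KW (LocFamI Inc)

/-- families from uniform estimates on an interval -/
theorem loc_gen {U V w : ℕ → ℝ → ℝ} {x h₀ β₁ β₂ τ α C : ℝ} {D N1 : ℕ} {γ : ℕ → ℝ} (hh₀ : 0 < h₀) (hβ : 1 < β₁)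
    (hβ' : β₁ ≤ β₂) (hα : 0 < α) (hC : 0 ≤ C)
    (hU : ∀ N, N1 ≤ N → ∀ y ∈ Icc (x - h₀) (x + h₀), HasDerivAt (U N) (V N y) y)
    (hV : ∀ N, N1 ≤ N → ∀ y ∈ Icc (x - h₀) (x + h₀), HasDerivAt (V N) (w N y) y)
    (hlow : ∀ N, N1 ≤ N → ∀ y ∈ Icc (x - h₀) (x + h₀), α * ((N : ℝ) + 1) * β₁ ^ N ≤ V N y)
    (hw : ∀ N, N1 ≤ N → ∀ y ∈ Icc (x - h₀) (x + h₀), 0 ≤ w N y ∧ w N y ≤ C * ((N : ℝ) + 1) * V N y)
    (hg : ∀ N, N1 ≤ N → ∀ y ∈ Icc (x - h₀) (x + h₀), β₁ * V N y ≤ V (N + 1) y ∧ V (N + 1) y ≤ β₂ * V N y)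
    (hgw : ∀ N, N1 ≤ N → ∀ y ∈ Icc (x - h₀) (x + h₀), β₁ * w N y ≤ w (N + 1) y)
    (hr : ∀ d, 1 ≤ d → d ≤ D → ∀ N, N1 ≤ N → ∀ y ∈ Icc (x - h₀) (x + h₀), |V (N + d) y - γ d * V N y| ≤ τ * V N y)
    (hrw : ∀ d, 1 ≤ d → d ≤ D → ∀ N, N1 ≤ N → ∀ y ∈ Icc (x - h₀) (x + h₀), |w (N + d) y - γ d * w N y| ≤ τ * w N y)
    (W : ℕ) (κ : ℝ) (hκ : 0 < κ) :
    ∃ (n₀ : ℕ) (v : ℕ → ℝ → ℝ) (a b : ℝ), x ∈ Ioo a b ∧ Icc a b ⊆ Icc (x - h₀) (x + h₀) ∧
      Fam (fun n => U (n + n₀)) v a b β₁ β₂ ∧ Ratio v a b τ D γ ∧ Dist (fun n => U (n + n₀)) v a b κ W ∧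
      Inc v a b β₁ τ D γ := by
  have hβ0 : 0 < β₁ := by linarith
  have e1 : ∀ᶠ n : ℕ in atTop, Real.exp (C * (1 + W) * 2 / (α * β₁ ^ n)) ≤ 1 + min κ 1 := by
    have h0 : Tendsto (fun n : ℕ => α * β₁ ^ n) atTop atTop :=
      (tendsto_pow_atTop_atTop_of_one_lt hβ).const_mul_atTop hα
    have h1 : Tendsto (fun n : ℕ => Real.exp (C * (1 + W) * 2 / (α * β₁ ^ n))) atTop (𝓝 (Real.exp 0)) :=
      (Real.continuous_exp.tendsto 0).comp (h0.const_div_atTop _)
    have h2 : Real.exp 0 < 1 + min κ 1 := by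
      rw [Real.exp_zero]
      have : 0 < min κ 1 := lt_min hκ one_pos
      linarith
    exact (h1.eventually_lt_const h2).mono fun n hn => hn.le
  have e2 : ∀ᶠ n : ℕ in atTop, 3 / 2 ≤ 2 * α * h₀ * ((n : ℝ) + 1) := by
    have h1 : Tendsto (fun n : ℕ => 2 * α * h₀ * ((n : ℝ) + 1)) atTop atTop :=
      (tendsto_atTop_add_const_right _ 1 tendsto_natCast_atTop_atTop).const_mul_atTop (by positivity)
    exact h1.eventually_ge_atTop _
  obtain ⟨n₀, hn1, hexp, hroot⟩ := ((eventually_ge_atTop N1).and (e1.and e2)).exists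
  have hpos : ∀ N, N1 ≤ N → ∀ y ∈ Icc (x - h₀) (x + h₀), 0 < V N y :=
    fun N hN y hy => lt_of_lt_of_le (by positivity) (hlow N hN y hy)
  have hVc : ∀ N, N1 ≤ N → ContinuousOn (V N) (Icc (x - h₀) (x + h₀)) :=
    fun N hN y hy => (hV N hN y hy).continuousAt.continuousWithinAt
  have hUc : ∀ N, N1 ≤ N → ContinuousOn (U N) (Icc (x - h₀) (x + h₀)) :=
    fun N hN y hy => (hU N hN y hy).continuousAt.continuousWithinAt
  have hmono : ∀ N, N1 ≤ N → MonotoneOn (V N) (Icc (x - h₀) (x + h₀)) := by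
    intro N hN
    refine monotoneOn_of_deriv_nonneg (convex_Icc _ _) (hVc N hN) ?_ ?_
    · intro y hy
      exact (hV N hN y (interior_subset hy)).differentiableAt.differentiableWithinAt
    · intro y hy
      rw [(hV N hN y (interior_subset hy)).deriv]
      exact (hw N hN y (interior_subset hy)).1
  -- the mean value theorem
  have hmv : ∀ N, N1 ≤ N → ∀ y ∈ Icc (x - h₀) (x + h₀), ∀ z ∈ Icc (x - h₀) (x + h₀), y ≤ z →
      V N y * (z - y) ≤ U N z - U N y := by
    intro N hN y hy z hz hyz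
    have hsub : Icc y z ⊆ Icc (x - h₀) (x + h₀) := Icc_subset_Icc hy.1 hz.2
    refine Convex.mul_sub_le_image_sub_of_le_deriv (convex_Icc y z) ((hUc N hN).mono hsub) ?_ ?_ y
      (left_mem_Icc.2 hyz) z (right_mem_Icc.2 hyz) hyz
    · intro t ht
      exact (hU N hN t (hsub (interior_subset ht))).differentiableAt.differentiableWithinAt
    · intro t ht
      have ht' := interior_subset ht
      rw [(hU N hN t (hsub ht')).deriv]
      exact hmono N hN hy (hsub ht') ht'.1
  -- growth of the derivatives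
  have hgr : ∀ N, N1 ≤ N → ∀ y ∈ Icc (x - h₀) (x + h₀), ∀ z ∈ Icc (x - h₀) (x + h₀), y ≤ z →
      V N z ≤ Real.exp (C * ((N : ℝ) + 1) * (z - y)) * V N y := by
    intro N hN y hy z hz hyz
    have hanti : AntitoneOn (fun t => V N t * Real.exp (-(C * ((N : ℝ) + 1) * t))) (Icc (x - h₀) (x + h₀)) := by
      refine antitoneOn_of_deriv_nonpos (convex_Icc _ _) ?_ ?_ ?_
      · exact (hVc N hN).mul (by fun_prop)
      · intro t ht
        have h1 := (hV N hN t (interior_subset ht)).differentiableAt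
        exact (h1.mul (by fun_prop)).differentiableWithinAt
      · intro t ht
        have ht' := interior_subset ht
        have h1 := (hV N hN t ht').mul ((((hasDerivAt_id t).const_mul (C * ((N : ℝ) + 1))).neg).exp)
        have h2 : deriv (fun t => V N t * Real.exp (-(C * ((N : ℝ) + 1) * t))) t =
            w N t * Real.exp (-(C * ((N : ℝ) + 1) * t)) +
            V N t * (Real.exp (-(C * ((N : ℝ) + 1) * t)) * -(C * ((N : ℝ) + 1) * 1)) := h1.deriv
        rw [h2]
        have h3 : w N t * Real.exp (-(C * ((N : ℝ) + 1) * t)) +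
            V N t * (Real.exp (-(C * ((N : ℝ) + 1) * t)) * -(C * ((N : ℝ) + 1) * 1)) =
            -((C * ((N : ℝ) + 1) * V N t - w N t) * Real.exp (-(C * ((N : ℝ) + 1) * t))) := by ring
        rw [h3]
        have h4 : 0 ≤ (C * ((N : ℝ) + 1) * V N t - w N t) * Real.exp (-(C * ((N : ℝ) + 1) * t)) :=
          mul_nonneg (by linarith [(hw N hN t ht').2]) (Real.exp_pos _).le
        linarith
    have h1 := hanti hy hz hyz
    simp only at h1
    have h2 : Real.exp (C * ((N : ℝ) + 1) * (z - y)) =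
        Real.exp (-(C * ((N : ℝ) + 1) * y)) * Real.exp (C * ((N : ℝ) + 1) * z) := by
      rw [← Real.exp_add]
      congr 1
      ring
    have h3 : Real.exp (-(C * ((N : ℝ) + 1) * z)) * Real.exp (C * ((N : ℝ) + 1) * z) = 1 := by
      rw [← Real.exp_add, neg_add_cancel, Real.exp_zero]
    have h4 := mul_le_mul_of_nonneg_right h1 (Real.exp_pos (C * ((N : ℝ) + 1) * z)).le
    rw [mul_assoc, h3, mul_one] at h4
    rw [h2]
    linarith
  -- the root interval
  have hx0 : x ∈ Icc (x - h₀) (x + h₀) := ⟨by linarith, by linarith⟩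
  obtain ⟨h, hh, hhh, hhe⟩ : ∃ h : ℝ, 0 < h ∧ h ≤ h₀ ∧ U n₀ (x + h) - U n₀ (x - h) = 3 / 2 := by
    have hcont : ContinuousOn (fun h : ℝ => U n₀ (x + h) - U n₀ (x - h)) (Icc 0 h₀) := by
      refine ContinuousOn.sub ?_ ?_
      · refine (hUc n₀ hn1).comp (by fun_prop) ?_
        intro t ht
        exact ⟨by linarith [ht.1], by linarith [ht.2]⟩
      · refine (hUc n₀ hn1).comp (by fun_prop) ?_
        intro t ht
        exact ⟨by linarith [ht.2], by linarith [ht.1]⟩
    have hl : x - h₀ ∈ Icc (x - h₀) (x + h₀) := ⟨le_rfl, by linarith⟩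
    have hr' : x + h₀ ∈ Icc (x - h₀) (x + h₀) := ⟨by linarith, le_rfl⟩
    have h4 : 3 / 2 ≤ U n₀ (x + h₀) - U n₀ (x - h₀) := by
      have h5 := hmv n₀ hn1 _ hl _ hr' (by linarith)
      have h6 := hlow n₀ hn1 _ hl
      have h7 : α * ((n₀ : ℝ) + 1) * 1 ≤ α * ((n₀ : ℝ) + 1) * β₁ ^ n₀ :=
        mul_le_mul_of_nonneg_left (one_le_pow₀ hβ.le) (by positivity)
      have h8 : α * ((n₀ : ℝ) + 1) * (2 * h₀) ≤ V n₀ (x - h₀) * (x + h₀ - (x - h₀)) := by
        have : x + h₀ - (x - h₀) = 2 * h₀ := by ring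
        rw [this]
        exact mul_le_mul_of_nonneg_right (by linarith) (by positivity)
      have h9 : α * ((n₀ : ℝ) + 1) * (2 * h₀) = 2 * α * h₀ * ((n₀ : ℝ) + 1) := by ring
      linarith
    have h5 : (3 / 2 : ℝ) ∈ Icc ((fun h : ℝ => U n₀ (x + h) - U n₀ (x - h)) 0)
        ((fun h : ℝ => U n₀ (x + h) - U n₀ (x - h)) h₀) := by
      refine ⟨?_, h4⟩
      simp only [add_zero, sub_zero, sub_self]
      norm_num
    obtain ⟨h, hh, hhe⟩ := intermediate_value_Icc hh₀.le hcont h5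
    refine ⟨h, lt_of_le_of_ne hh.1 ?_, hh.2, hhe⟩
    rintro rfl
    simp only [add_zero, sub_zero, sub_self] at hhe
    norm_num at hhe
  have hsub : Icc (x - h) (x + h) ⊆ Icc (x - h₀) (x + h₀) := Icc_subset_Icc (by linarith) (by linarith)
  have hN : ∀ n : ℕ, N1 ≤ n + n₀ := fun n => by omega
  -- distortion
  have hdist : ∀ n j, n ≤ j → j ≤ n + W → ∀ y ∈ Icc (x - h) (x + h), ∀ z ∈ Icc (x - h) (x + h), y ≤ z →
      U (n + n₀) z - U (n + n₀) y ≤ 2 → V (j + n₀) z ≤ (1 + min κ 1) * V (j + n₀) y := by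
    intro n j hnj hjW y hy z hz hyz hu
    have h1 := hmv (n + n₀) (hN n) y (hsub hy) z (hsub hz) hyz
    have h2 := hlow (n + n₀) (hN n) y (hsub hy)
    have h3 := hgr (j + n₀) (hN j) y (hsub hy) z (hsub hz) hyz
    have hzy : 0 ≤ z - y := by linarith
    have h4 : α * ((((n + n₀ : ℕ) : ℝ) + 1) * (z - y)) * β₁ ^ n₀ ≤ 2 := by
      have h5 : β₁ ^ n₀ ≤ β₁ ^ (n + n₀) := pow_le_pow_right₀ hβ.le (by omega)
      calc α * ((((n + n₀ : ℕ) : ℝ) + 1) * (z - y)) * β₁ ^ n₀
          ≤ α * ((((n + n₀ : ℕ) : ℝ) + 1) * (z - y)) * β₁ ^ (n + n₀) := by gcongr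
        _ = (α * (((n + n₀ : ℕ) : ℝ) + 1) * β₁ ^ (n + n₀)) * (z - y) := by ring
        _ ≤ V (n + n₀) y * (z - y) := mul_le_mul_of_nonneg_right h2 hzy
        _ ≤ 2 := by linarith
    have h5 : C * (((j + n₀ : ℕ) : ℝ) + 1) * (z - y) ≤ C * (1 + W) * 2 / (α * β₁ ^ n₀) := by
      rw [le_div_iff₀ (by positivity)]
      have h6 : ((j + n₀ : ℕ) : ℝ) + 1 ≤ (1 + W) * (((n + n₀ : ℕ) : ℝ) + 1) := by
        have h7 : (j + n₀ : ℕ) + 1 ≤ (1 + W) * ((n + n₀) + 1) := by
          nlinarith [Nat.zero_le (W * (n + n₀))]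
        exact_mod_cast h7
      calc C * (((j + n₀ : ℕ) : ℝ) + 1) * (z - y) * (α * β₁ ^ n₀)
          ≤ C * ((1 + W) * (((n + n₀ : ℕ) : ℝ) + 1)) * (z - y) * (α * β₁ ^ n₀) := by gcongr
        _ = C * (1 + W) * (α * ((((n + n₀ : ℕ) : ℝ) + 1) * (z - y)) * β₁ ^ n₀) := by ring
        _ ≤ C * (1 + W) * 2 := mul_le_mul_of_nonneg_left h4 (by positivity)
    calc V (j + n₀) z ≤ Real.exp (C * (((j + n₀ : ℕ) : ℝ) + 1) * (z - y)) * V (j + n₀) y := h3
      _ ≤ (1 + min κ 1) * V (j + n₀) y := by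
          refine mul_le_mul_of_nonneg_right ?_ (hpos _ (hN j) y (hsub hy)).le
          exact (Real.exp_le_exp.2 h5).trans hexp
  refine ⟨n₀, fun n => V (n + n₀), x - h, x + h, ⟨by linarith, by linarith⟩, hsub, ?_, ?_, ?_, ?_⟩
  · refine ⟨by linarith, hβ, hβ', ?_, ?_, ?_, ?_, ?_, ?_, ?_⟩
    · exact fun n y hy => hU _ (hN n) y (hsub hy)
    · exact fun n => (hVc _ (hN n)).mono hsub
    · exact fun n y hy => hpos _ (hN n) y (hsub hy)
    · exact fun n => (hmono _ (hN n)).mono hsub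
    · intro n y hy
      have h1 := hg _ (hN n) y (hsub hy)
      rw [show n + n₀ + 1 = n + 1 + n₀ by omega] at h1
      exact h1
    · simp only [Nat.zero_add, hhe]
      norm_num
    · intro n y hy z hz hyz hu
      have h1 := hdist n n le_rfl (by omega) y hy z hz hyz hu
      refine h1.trans ?_
      refine mul_le_mul_of_nonneg_right ?_ (hpos _ (hN n) y (hsub hy)).le
      have := min_le_right κ 1
      linarith
  · intro d hd1 hdD j y hy
    have h1 := hr d hd1 hdD _ (hN j) y (hsub hy)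
    rw [show j + n₀ + d = j + d + n₀ by omega] at h1
    exact h1
  · intro n j hnj hjW y hy z hz hyz hu
    have h1 := hdist n j hnj hjW y hy z hz hyz hu
    refine h1.trans ?_
    refine mul_le_mul_of_nonneg_right ?_ (hpos _ (hN j) y (hsub hy)).le
    have := min_le_left κ 1
    linarith
  · have key : ∀ (p q : ℝ) (M N : ℕ), N1 ≤ M → N1 ≤ N → (∀ y ∈ Icc (x - h₀) (x + h₀), 0 ≤ p * w M y + q * w N y) →
        MonotoneOn (fun y => p * V M y + q * V N y) (Icc (x - h) (x + h)) := by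
      intro p q M N hM hN' hpq
      refine MonotoneOn.mono ?_ hsub
      refine monotoneOn_of_deriv_nonneg (convex_Icc _ _) ?_ ?_ ?_
      · exact ((hVc M hM).const_smul p).add ((hVc N hN').const_smul q)
      · intro y hy
        have hy' := interior_subset hy
        exact (((hV M hM y hy').differentiableAt.const_mul p).add
          ((hV N hN' y hy').differentiableAt.const_mul q)).differentiableWithinAt
      · intro y hy
        have hy' := interior_subset hy
        have h1 := ((hV M hM y hy').const_mul p).add ((hV N hN' y hy').const_mul q)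
        have h2 : deriv (fun y => p * V M y + q * V N y) y = p * w M y + q * w N y := h1.deriv
        rw [h2]
        exact hpq y hy'
    refine ⟨?_, ?_, ?_⟩
    · intro n
      have h1 := key 1 (-β₁) (n + 1 + n₀) (n + n₀) (hN _) (hN _) (fun y hy => by
        have h2 := hgw _ (hN n) y hy
        rw [show n + n₀ + 1 = n + 1 + n₀ by omega] at h2
        linarith)
      refine h1.congr fun y _ => ?_
      simp only
      ring
    · intro d hd1 hdD j
      have h1 := key 1 (-(γ d - τ)) (j + d + n₀) (j + n₀) (hN _) (hN _) (fun y hy => by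
        have h2 := abs_le.1 (hrw d hd1 hdD _ (hN j) y hy)
        rw [show j + n₀ + d = j + d + n₀ by omega] at h2
        linarith [h2.1])
      refine h1.congr fun y _ => ?_
      simp only
      ring
    · intro d hd1 hdD j
      have h1 := key (γ d + τ) (-1) (j + n₀) (j + d + n₀) (hN _) (hN _) (fun y hy => by
        have h2 := abs_le.1 (hrw d hd1 hdD _ (hN j) y hy)
        rw [show j + n₀ + d = j + d + n₀ by omega] at h2
        linarith [h2.2])
      refine h1.congr fun y _ => ?_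
      simp only
      ring

theorem instG_pow {x₀ β₁ β₂ τ : ℝ} (hx₀ : 1 < x₀) (hβ : 1 < β₁) (h₁ : β₁ < x₀) (h₂ : x₀ < β₂) (hτ : 0 < τ) (D : ℕ) :
    ∃ ρ₀ : ℝ, 0 < ρ₀ ∧ ∀ (O : Set ℝ) (r : ℝ → ℝ), IsOpen O → O ⊆ Ioo (x₀ - ρ₀) (x₀ + ρ₀) → ContDiffOn ℝ 2 r O →
      (∀ x ∈ O, 0 < r x) → ∀ c : ℕ → ℝ,
      LocFam (fun n x => r x * x ^ (n + 1) + c n) O (fun d => x₀ ^ d) D τ β₁ β₂ ∧
      LocFamI (fun n x => r x * x ^ (n + 1) + c n) O (fun d => x₀ ^ d) D τ β₁ β₂ := by
  set e : ℝ := min (τ / 2) (min ((x₀ - β₁) / 2) ((β₂ - x₀) / 2)) with he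
  have he0 : 0 < e := lt_min (by linarith) (lt_min (by linarith) (by linarith))
  have he1 : e ≤ τ / 2 := min_le_left _ _
  have he2 : e ≤ (x₀ - β₁) / 2 := (min_le_right _ _).trans (min_le_left _ _)
  have he3 : e ≤ (β₂ - x₀) / 2 := (min_le_right _ _).trans (min_le_right _ _)
  -- the radius
  have hev : ∀ᶠ y in 𝓝 x₀, |y - x₀| < e ∧ ∀ d ∈ Finset.range (D + 1), |y ^ d - x₀ ^ d| < τ / 2 := by
    refine Filter.Eventually.and ?_ ?_
    · have hc : ContinuousAt (fun y : ℝ => |y - x₀|) x₀ := by fun_prop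
      have : (fun y : ℝ => |y - x₀|) x₀ < e := by simpa using he0
      exact hc.eventually_lt continuousAt_const this
    · rw [Filter.eventually_all_finset]
      intro d _
      have hc : ContinuousAt (fun y : ℝ => |y ^ d - x₀ ^ d|) x₀ := by fun_prop
      have : (fun y : ℝ => |y ^ d - x₀ ^ d|) x₀ < τ / 2 := by simp; linarith
      exact hc.eventually_lt continuousAt_const this
  obtain ⟨ρ₀, hρ₀, hball⟩ := Metric.eventually_nhds_iff.1 hev
  refine ⟨ρ₀, hρ₀, fun O r hO hOρ hr hrpos c => ?_⟩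
  have hG : ∀ y ∈ O, |y - x₀| < e ∧ ∀ d ∈ Finset.range (D + 1), |y ^ d - x₀ ^ d| < τ / 2 := by
    intro y hy
    apply hball
    have := hOρ hy
    rw [Real.dist_eq, abs_lt]
    rw [mem_Ioo] at this
    constructor <;> linarith [this.1, this.2]
  have hr1 : ContDiffOn ℝ 1 (deriv r) O := hr.deriv_of_isOpen hO (by norm_num)
  have hr2 : ContDiffOn ℝ 0 (deriv (deriv r)) O := hr1.deriv_of_isOpen hO (by norm_num)
  have hD1 : ∀ y ∈ O, HasDerivAt r (deriv r y) y := fun y hy =>
    ((hr.differentiableOn (by norm_num)).differentiableAt (hO.mem_nhds hy)).hasDerivAt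
  have hD2 : ∀ y ∈ O, HasDerivAt (deriv r) (deriv (deriv r) y) y := fun y hy =>
    ((hr1.differentiableOn (by norm_num)).differentiableAt (hO.mem_nhds hy)).hasDerivAt
  -- the estimates near a point
  have key : ∀ x ∈ O, ∀ nb ∈ 𝓝 x, ∀ (W : ℕ) (κ : ℝ), 0 < κ → ∃ (n₀ : ℕ) (v : ℕ → ℝ → ℝ) (a b : ℝ), x ∈ Ioo a b ∧
      Icc a b ⊆ nb ∧ Fam (fun n => (fun n x => r x * x ^ (n + 1) + c n) (n + n₀)) v a b β₁ β₂ ∧
      Ratio v a b τ D (fun d => x₀ ^ d) ∧ Dist (fun n => (fun n x => r x * x ^ (n + 1) + c n) (n + n₀)) v a b κ W ∧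
      Inc v a b β₁ τ D (fun d => x₀ ^ d) := by
    intro x hx nb hnb W κ hκ
    obtain ⟨ε, hε, hOε⟩ := Metric.mem_nhds_iff.1 (Filter.inter_mem hnb (hO.mem_nhds hx))
    set h₀ : ℝ := ε / 2 with hh₀
    have hh0 : 0 < h₀ := by positivity
    have hin : ∀ y ∈ Icc (x - h₀) (x + h₀), y ∈ nb ∩ O := by
      intro y hy
      apply hOε
      rw [Metric.mem_ball, Real.dist_eq, abs_lt]
      rw [mem_Icc] at hy
      constructor <;> linarith [hy.1, hy.2]
    have hsub : Icc (x - h₀) (x + h₀) ⊆ O := fun y hy => (hin y hy).2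
    have hne : (Icc (x - h₀) (x + h₀)).Nonempty := ⟨x, by constructor <;> linarith⟩
    -- the constants
    obtain ⟨y₁, hy₁, hmin⟩ := isCompact_Icc.exists_isMinOn hne (hr.continuousOn.mono hsub)
    set m : ℝ := r y₁ with hm
    have hm0 : 0 < m := hrpos y₁ (hsub hy₁)
    have hmr : ∀ y ∈ Icc (x - h₀) (x + h₀), m ≤ r y := fun y hy => hmin hy
    obtain ⟨M0, hM0⟩ := isCompact_Icc.exists_bound_of_continuousOn (hr.continuousOn.mono hsub)
    obtain ⟨M1, hM1⟩ := isCompact_Icc.exists_bound_of_continuousOn (hr1.continuousOn.mono hsub)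
    obtain ⟨M2, hM2⟩ := isCompact_Icc.exists_bound_of_continuousOn (hr2.continuousOn.mono hsub)
    set M : ℝ := max M0 (max M1 M2) with hM
    have hMr : ∀ y ∈ Icc (x - h₀) (x + h₀), r y ≤ M ∧ |deriv r y| ≤ M ∧ |deriv (deriv r) y| ≤ M := by
      intro y hy
      have g0 := hM0 y hy
      have g1 := hM1 y hy
      have g2 := hM2 y hy
      rw [Real.norm_eq_abs] at g0 g1 g2
      exact ⟨(le_abs_self _).trans (g0.trans (le_max_left _ _)), g1.trans ((le_max_left _ _).trans (le_max_right _ _)),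
        g2.trans ((le_max_right _ _).trans (le_max_right _ _))⟩
    have hMpos : 0 < M := lt_of_lt_of_le hm0 (hMr y₁ hy₁).1
    set Y : ℝ := β₂ with hY
    have hY1 : 1 < Y := by linarith
    have hyb : ∀ y ∈ Icc (x - h₀) (x + h₀), β₁ + e ≤ y ∧ y ≤ β₂ - e ∧ ∀ d, d ≤ D → |y ^ d - x₀ ^ d| ≤ τ / 2 := by
      intro y hy
      obtain ⟨g1, g2⟩ := hG y (hsub hy)
      rw [abs_lt] at g1
      exact ⟨by linarith [g1.1], by linarith [g1.2], fun d hd => (g2 d (Finset.mem_range.2 (by omega))).le⟩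
    -- the threshold
    set L : ℝ := Y ^ (D + 1) * M * (((D : ℝ) + 1) * ((D : ℝ) + 3) + 2 * ((D : ℝ) + 1) * Y) with hL
    have hL0 : 0 < L := by positivity
    set Q : ℝ := 2 * Y * M + Y ^ 2 * M with hQ
    have hQ0 : 0 < Q := by positivity
    obtain ⟨N1, hN1⟩ := exists_nat_ge ((L / e + 2 * Q) / m + 1)
    have hN1' : ∀ N : ℕ, N1 ≤ N → L / e + 2 * Q ≤ (N : ℝ) * m ∧ (1 : ℝ) ≤ N := by
      intro N hN
      have g1 : (N1 : ℝ) ≤ N := by exact_mod_cast hN
      have g2 : (L / e + 2 * Q) / m ≤ N := by linarith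
      rw [div_le_iff₀ hm0] at g2
      have g3 : 0 ≤ (L / e + 2 * Q) / m := by positivity
      exact ⟨g2, by linarith⟩
    -- the functions
    set A : ℕ → ℝ → ℝ := fun N y => ((N : ℝ) + 1) * r y + y * deriv r y with hA
    set B : ℕ → ℝ → ℝ := fun N y => (N : ℝ) * ((N : ℝ) + 1) * r y + 2 * ((N : ℝ) + 1) * (y * deriv r y) +
      y ^ 2 * deriv (deriv r) y with hB
    set V : ℕ → ℝ → ℝ := fun N y => y ^ N * A N y with hV
    set w : ℕ → ℝ → ℝ := fun N y => (N : ℝ) * y ^ (N - 1) * A N y +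
      y ^ N * (((N : ℝ) + 1) * deriv r y + (1 * deriv r y + y * deriv (deriv r) y)) with hw
    have hyw : ∀ N, 1 ≤ N → ∀ y, y * w N y = y ^ N * B N y := by
      intro N hN y
      obtain ⟨K, rfl⟩ := Nat.exists_eq_add_of_le' hN
      simp only [hw, hB, hA, Nat.add_sub_cancel]
      push_cast
      ring
    -- bounds
    have hI : ∀ N, N1 ≤ N → ∀ y ∈ Icc (x - h₀) (x + h₀), (((N : ℝ) + 1) * (m / 2) ≤ A N y ∧ L ≤ e * A N y ∧
        0 < B N y ∧ ((N : ℝ) + 1) * L ≤ e * B N y ∧ B N y ≤ ((N : ℝ) + 1) ^ 2 * (M + Q)) := by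
      intro N hN y hy
      obtain ⟨g1, g2⟩ := hN1' N hN
      obtain ⟨k1, k2, -⟩ := hyb y hy
      obtain ⟨m1, m2, m3⟩ := hMr y hy
      have m0 := hmr y hy
      have hy0 : 0 < y := by linarith
      have hyY : y ≤ Y := by rw [hY]; linarith
      have q1 : |y * deriv r y| ≤ Y * M := by
        rw [abs_mul, abs_of_pos hy0]
        exact mul_le_mul hyY m2 (abs_nonneg _) (by positivity)
      have q2 : |y ^ 2 * deriv (deriv r) y| ≤ Y ^ 2 * M := by
        rw [abs_mul, abs_of_pos (by positivity)]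
        exact mul_le_mul (pow_le_pow_left₀ hy0.le hyY 2) m3 (abs_nonneg _) (by positivity)
      rw [abs_le] at q1 q2
      have hLe : 0 < L / e := by positivity
      have hYM : 0 < Y * M := by positivity
      have hY2M : 0 < Y ^ 2 * M := by positivity
      have hQe : Q = 2 * (Y * M) + Y ^ 2 * M := by rw [hQ]; ring
      have a1 : ((N : ℝ) + 1) * m - Y * M ≤ A N y := by
        simp only [hA]
        have : ((N : ℝ) + 1) * m ≤ ((N : ℝ) + 1) * r y := mul_le_mul_of_nonneg_left m0 (by positivity)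
        linarith [q1.1]
      have a2 : ((N : ℝ) + 1) * ((N : ℝ) * m - Q) ≤ B N y := by
        simp only [hB]
        have b1 : (N : ℝ) * ((N : ℝ) + 1) * m ≤ (N : ℝ) * ((N : ℝ) + 1) * r y := mul_le_mul_of_nonneg_left m0 (by positivity)
        have b2 : 2 * ((N : ℝ) + 1) * (-(Y * M)) ≤ 2 * ((N : ℝ) + 1) * (y * deriv r y) :=
          mul_le_mul_of_nonneg_left q1.1 (by positivity)
        have b3 : Y ^ 2 * M ≤ ((N : ℝ) + 1) * (Y ^ 2 * M) := le_mul_of_one_le_left hY2M.le (by linarith)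
        rw [hQe]
        linarith [q2.1]
      have a3 : B N y ≤ ((N : ℝ) + 1) * ((N : ℝ) * M + Q) := by
        simp only [hB]
        have b1 : (N : ℝ) * ((N : ℝ) + 1) * r y ≤ (N : ℝ) * ((N : ℝ) + 1) * M := mul_le_mul_of_nonneg_left m1 (by positivity)
        have b2 : 2 * ((N : ℝ) + 1) * (y * deriv r y) ≤ 2 * ((N : ℝ) + 1) * (Y * M) :=
          mul_le_mul_of_nonneg_left q1.2 (by positivity)
        have b3 : Y ^ 2 * M ≤ ((N : ℝ) + 1) * (Y ^ 2 * M) := le_mul_of_one_le_left hY2M.le (by linarith)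
        rw [hQe]
        linarith [q2.2]
      have hm' : m ≤ (N : ℝ) * m := le_mul_of_one_le_left hm0.le g2
      have hLm : L ≤ e * ((N : ℝ) * m - 2 * Q) := by
        have h1 : L / e ≤ (N : ℝ) * m - 2 * Q := by linarith
        rw [div_le_iff₀ he0] at h1
        linarith
      refine ⟨?_, ?_, ?_, ?_, ?_⟩
      · linarith
      · refine hLm.trans (mul_le_mul_of_nonneg_left ?_ he0.le)
        linarith
      · refine lt_of_lt_of_le ?_ a2
        apply mul_pos (by positivity)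
        linarith
      · have h1 : ((N : ℝ) + 1) * L ≤ ((N : ℝ) + 1) * (e * ((N : ℝ) * m - 2 * Q)) := mul_le_mul_of_nonneg_left hLm (by positivity)
        have h2 : e * (((N : ℝ) + 1) * ((N : ℝ) * m - Q)) ≤ e * B N y := mul_le_mul_of_nonneg_left a2 he0.le
        have h3 : 0 ≤ e * (((N : ℝ) + 1) * Q) := by positivity
        linarith
      · refine a3.trans ?_
        have h1 : (N : ℝ) * M + Q ≤ ((N : ℝ) + 1) * (M + Q) := by
          have : 0 ≤ (N : ℝ) * Q := by positivity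
          linarith
        calc ((N : ℝ) + 1) * ((N : ℝ) * M + Q) ≤ ((N : ℝ) + 1) * (((N : ℝ) + 1) * (M + Q)) :=
              mul_le_mul_of_nonneg_left h1 (by positivity)
          _ = _ := by ring
    have hVpos : ∀ N, N1 ≤ N → ∀ y ∈ Icc (x - h₀) (x + h₀), 0 < y ∧ 0 ≤ V N y ∧ 0 ≤ w N y := by
      intro N hN y hy
      obtain ⟨i1, i2, i3, i4, i5⟩ := hI N hN y hy
      obtain ⟨k1, k2, -⟩ := hyb y hy
      obtain ⟨g1, g2⟩ := hN1' N hN
      have hy0 : 0 < y := by linarith
      have hN1N : 1 ≤ N := by exact_mod_cast g2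
      have hA0 : 0 ≤ A N y := le_trans (by positivity) i1
      refine ⟨hy0, mul_nonneg (by positivity) hA0, ?_⟩
      have h1 : 0 ≤ y * w N y := by
        rw [hyw N hN1N]
        positivity
      exact nonneg_of_mul_nonneg_right h1 hy0
    -- ratios
    have hratio : ∀ d, d ≤ D + 1 → ∀ N, N1 ≤ N → ∀ y ∈ Icc (x - h₀) (x + h₀),
        |V (N + d) y - y ^ d * V N y| ≤ e * V N y ∧ |w (N + d) y - y ^ d * w N y| ≤ e * w N y := by
      intro d hd N hN y hy
      obtain ⟨i1, i2, i3, i4, i5⟩ := hI N hN y hy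
      obtain ⟨k1, k2, -⟩ := hyb y hy
      obtain ⟨m1, m2, m3⟩ := hMr y hy
      have m0 := hmr y hy
      obtain ⟨g1, g2⟩ := hN1' N hN
      have hy0 : 0 < y := by linarith
      have hyY : y ≤ Y := by rw [hY]; linarith
      have hr0 : 0 < r y := by linarith
      have hN1N : 1 ≤ N := by exact_mod_cast g2
      have hdD : (d : ℝ) ≤ (D : ℝ) + 1 := by exact_mod_cast hd
      have hd0 : (0 : ℝ) ≤ d := Nat.cast_nonneg d
      have hyd : y ^ d ≤ Y ^ (D + 1) := by
        calc y ^ d ≤ Y ^ d := pow_le_pow_left₀ hy0.le hyY d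
          _ ≤ Y ^ (D + 1) := pow_le_pow_right₀ hY1.le hd
      have hyd0 : 0 < y ^ d := by positivity
      have hyN0 : 0 < y ^ N := by positivity
      constructor
      · have h1 : V (N + d) y - y ^ d * V N y = y ^ N * (y ^ d * (d * r y)) := by
          simp only [hV, hA, pow_add]
          push_cast
          ring
        rw [h1, abs_of_nonneg (by positivity)]
        have h2 : y ^ d * (d * r y) ≤ L := by
          calc y ^ d * (d * r y) ≤ Y ^ (D + 1) * (((D : ℝ) + 1) * M) := by gcongr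
            _ = Y ^ (D + 1) * M * ((D : ℝ) + 1) := by ring
            _ ≤ L := by
                rw [hL]
                refine mul_le_mul_of_nonneg_left ?_ (by positivity)
                have : 0 ≤ 2 * ((D : ℝ) + 1) * Y := by positivity
                nlinarith [Nat.cast_nonneg (α := ℝ) D]
        calc y ^ N * (y ^ d * (d * r y)) ≤ y ^ N * (e * A N y) := mul_le_mul_of_nonneg_left (h2.trans i2) hyN0.le
          _ = e * V N y := by simp only [hV]; ring
      · have h1 : y * (w (N + d) y - y ^ d * w N y) = y ^ N * (y ^ d * (B (N + d) y - B N y)) := by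
          have e1 := hyw (N + d) (by omega) y
          have e2 := hyw N hN1N y
          have e3 : y ^ (N + d) = y ^ N * y ^ d := pow_add _ _ _
          rw [e3] at e1
          linear_combination e1 - y ^ d * e2
        have h2 : |y ^ d * (B (N + d) y - B N y)| ≤ e * B N y := by
          have h3 : B (N + d) y - B N y = d * (2 * (N : ℝ) + d + 1) * r y + 2 * d * (y * deriv r y) := by
            simp only [hB]
            push_cast
            ring
          have q1 : |y * deriv r y| ≤ Y * M := by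
            rw [abs_mul, abs_of_pos hy0]
            exact mul_le_mul hyY m2 (abs_nonneg _) (by positivity)
          have h4 : |B (N + d) y - B N y| ≤ ((N : ℝ) + 1) * (M * (((D : ℝ) + 1) * ((D : ℝ) + 3) + 2 * ((D : ℝ) + 1) * Y)) := by
            rw [h3]
            have h5 : |(d : ℝ) * (2 * (N : ℝ) + d + 1) * r y| ≤ ((D : ℝ) + 1) * (((D : ℝ) + 3) * ((N : ℝ) + 1)) * M := by
              rw [abs_of_nonneg (by positivity)]
              have h6 : 2 * (N : ℝ) + d + 1 ≤ ((D : ℝ) + 3) * ((N : ℝ) + 1) := by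
                have : 0 ≤ (D : ℝ) * N := by positivity
                linarith
              gcongr
            have h6 : |2 * (d : ℝ) * (y * deriv r y)| ≤ ((N : ℝ) + 1) * (2 * ((D : ℝ) + 1) * (Y * M)) := by
              rw [abs_mul, abs_of_nonneg (by positivity : (0 : ℝ) ≤ 2 * d)]
              have h7 : 2 * (d : ℝ) * |y * deriv r y| ≤ 2 * ((D : ℝ) + 1) * (Y * M) := by gcongr
              have h8 : 0 ≤ 2 * ((D : ℝ) + 1) * (Y * M) := by positivity
              refine h7.trans (le_mul_of_one_le_left h8 (by linarith))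
            calc _ ≤ |(d : ℝ) * (2 * (N : ℝ) + d + 1) * r y| + |2 * (d : ℝ) * (y * deriv r y)| := abs_add_le _ _
              _ ≤ ((D : ℝ) + 1) * (((D : ℝ) + 3) * ((N : ℝ) + 1)) * M + ((N : ℝ) + 1) * (2 * ((D : ℝ) + 1) * (Y * M)) :=
                  add_le_add h5 h6
              _ = _ := by ring
          rw [abs_mul, abs_of_pos hyd0]
          calc y ^ d * |B (N + d) y - B N y| ≤ Y ^ (D + 1) *
                (((N : ℝ) + 1) * (M * (((D : ℝ) + 1) * ((D : ℝ) + 3) + 2 * ((D : ℝ) + 1) * Y))) := by gcongr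
            _ = ((N : ℝ) + 1) * L := by rw [hL]; ring
            _ ≤ e * B N y := i4
        have h3 : y * |w (N + d) y - y ^ d * w N y| ≤ y * (e * w N y) := by
          calc y * |w (N + d) y - y ^ d * w N y| = |y * (w (N + d) y - y ^ d * w N y)| := by
                rw [abs_mul, abs_of_pos hy0]
            _ = y ^ N * |y ^ d * (B (N + d) y - B N y)| := by rw [h1, abs_mul, abs_of_pos hyN0]
            _ ≤ y ^ N * (e * B N y) := mul_le_mul_of_nonneg_left h2 hyN0.le
            _ = e * (y ^ N * B N y) := by ring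
            _ = y * (e * w N y) := by rw [← hyw N hN1N y]; ring
        exact le_of_mul_le_mul_left h3 hy0
    obtain ⟨n₀, v, a, b, z1, z2, z3, z4, z5, z6⟩ := loc_gen (U := fun n x => r x * x ^ (n + 1) + c n) (V := V) (w := w)
      (x := x) (h₀ := h₀) (β₁ := β₁) (β₂ := β₂) (τ := τ) (α := m / 2) (C := 2 * (M + Q) / m) (D := D) (N1 := N1)
      (γ := fun d => x₀ ^ d) hh0 hβ (by linarith) (by positivity) (by positivity)
      (by
        intro N hN y hy
        have h1 := ((hD1 y (hsub hy)).mul (hasDerivAt_pow (N + 1) y)).add_const (c N)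
        refine h1.congr_deriv ?_
        simp only [hV, hA, Nat.add_sub_cancel]
        push_cast
        ring)
      (by
        intro N hN y hy
        have h1 := ((hD1 y (hsub hy)).const_mul ((N : ℝ) + 1)).add ((hasDerivAt_id y).mul (hD2 y (hsub hy)))
        exact (hasDerivAt_pow N y).mul h1)
      (by
        intro N hN y hy
        obtain ⟨i1, -⟩ := hI N hN y hy
        obtain ⟨k1, k2, -⟩ := hyb y hy
        have h1 : β₁ ^ N ≤ y ^ N := pow_le_pow_left₀ (by linarith) (by linarith) N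
        have h0 : 0 ≤ ((N : ℝ) + 1) * (m / 2) := by positivity
        calc m / 2 * ((N : ℝ) + 1) * β₁ ^ N = β₁ ^ N * (((N : ℝ) + 1) * (m / 2)) := by ring
          _ ≤ y ^ N * A N y := mul_le_mul h1 i1 h0 ((pow_nonneg (by linarith) N).trans h1))
      (by
        intro N hN y hy
        obtain ⟨i1, i2, i3, i4, i5⟩ := hI N hN y hy
        obtain ⟨v1, v2, v3⟩ := hVpos N hN y hy
        obtain ⟨k1, k2, -⟩ := hyb y hy
        obtain ⟨g1, g2⟩ := hN1' N hN
        have hN1N : 1 ≤ N := by exact_mod_cast g2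
        refine ⟨v3, ?_⟩
        have h1 : w N y ≤ y * w N y := le_mul_of_one_le_left v3 (by linarith)
        rw [hyw N hN1N] at h1
        refine h1.trans ?_
        have h2 : B N y ≤ 2 * (M + Q) / m * ((N : ℝ) + 1) * A N y := by
          refine i5.trans ?_
          calc ((N : ℝ) + 1) ^ 2 * (M + Q) = 2 * (M + Q) / m * ((N : ℝ) + 1) * (((N : ℝ) + 1) * (m / 2)) := by field_simp
            _ ≤ _ := mul_le_mul_of_nonneg_left i1 (by positivity)
        calc y ^ N * B N y ≤ y ^ N * (2 * (M + Q) / m * ((N : ℝ) + 1) * A N y) := mul_le_mul_of_nonneg_left h2 (by positivity)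
          _ = _ := by simp only [hV]; ring)
      (by
        intro N hN y hy
        obtain ⟨v1, v2, v3⟩ := hVpos N hN y hy
        obtain ⟨k1, k2, -⟩ := hyb y hy
        obtain ⟨h1, -⟩ := hratio 1 (by omega) N hN y hy
        rw [pow_one, abs_le] at h1
        have h3 : (β₁ + e) * V N y ≤ y * V N y := mul_le_mul_of_nonneg_right k1 v2
        have h4 : y * V N y ≤ (β₂ - e) * V N y := mul_le_mul_of_nonneg_right k2 v2
        constructor <;> linarith [h1.1, h1.2])
      (by
        intro N hN y hy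
        obtain ⟨v1, v2, v3⟩ := hVpos N hN y hy
        obtain ⟨k1, k2, -⟩ := hyb y hy
        obtain ⟨-, h1⟩ := hratio 1 (by omega) N hN y hy
        rw [pow_one, abs_le] at h1
        have h3 : (β₁ + e) * w N y ≤ y * w N y := mul_le_mul_of_nonneg_right k1 v3
        linarith [h1.1])
      (by
        intro d hd1 hdD N hN y hy
        obtain ⟨v1, v2, v3⟩ := hVpos N hN y hy
        obtain ⟨k1, k2, k3⟩ := hyb y hy
        obtain ⟨h1, -⟩ := hratio d (by omega) N hN y hy
        have h2 := k3 d hdD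
        have h3 : |(y ^ d - x₀ ^ d) * V N y| ≤ τ / 2 * V N y := by
          rw [abs_mul, abs_of_nonneg v2]
          exact mul_le_mul_of_nonneg_right h2 v2
        have h4 : V (N + d) y - x₀ ^ d * V N y = (V (N + d) y - y ^ d * V N y) + (y ^ d - x₀ ^ d) * V N y := by ring
        rw [h4]
        refine (abs_add_le _ _).trans ?_
        have h5 : e * V N y ≤ τ / 2 * V N y := mul_le_mul_of_nonneg_right he1 v2
        linarith)
      (by
        intro d hd1 hdD N hN y hy
        obtain ⟨v1, v2, v3⟩ := hVpos N hN y hy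
        obtain ⟨k1, k2, k3⟩ := hyb y hy
        obtain ⟨-, h1⟩ := hratio d (by omega) N hN y hy
        have h2 := k3 d hdD
        have h3 : |(y ^ d - x₀ ^ d) * w N y| ≤ τ / 2 * w N y := by
          rw [abs_mul, abs_of_nonneg v3]
          exact mul_le_mul_of_nonneg_right h2 v3
        have h4 : w (N + d) y - x₀ ^ d * w N y = (w (N + d) y - y ^ d * w N y) + (y ^ d - x₀ ^ d) * w N y := by ring
        rw [h4]
        refine (abs_add_le _ _).trans ?_
        have h5 : e * w N y ≤ τ / 2 * w N y := mul_le_mul_of_nonneg_right he1 v3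
        linarith)
      W κ hκ
    exact ⟨n₀, v, a, b, z1, fun y hy => (hin y (z2 hy)).1, z3, z4, z5, z6⟩
  refine ⟨?_, ?_⟩
  · intro x hx nb hnb W κ hκ
    obtain ⟨n₀, v, a, b, g1, g2, g3, g4, g5, g6⟩ := key x hx nb hnb W κ hκ
    exact ⟨n₀, v, a, b, g1, g2, g3, g4, g5⟩
  · intro x hx nb hnb
    obtain ⟨n₀, v, a, b, g1, g2, g3, g4, g5, g6⟩ := key x hx nb hnb 0 1 one_pos
    exact ⟨n₀, v, a, b, g1, g2, g3, g4, g6⟩

end Pool.Agent.Helper80.KD
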